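import Mathlib
import Pool.Agent.MP_15e54c_lc.H83.Core

set_option autoImplicit false

open Set

namespace Pool.Agent.Results.MP_15e54c_lc.BorelTranslates

open Pool.Agent.MP_15e54c_lc.H83 in
/-- In the Cantor group there is a Borel set with uncountably many pairwise disjoint translates
but without a perfect family of pairwise disjoint translates. -/
theorem result : ∃ B : Set (ℕ → ZMod 2), @MeasurableSet (ℕ → ZMod 2) (borel (ℕ → ZMod 2)) B ∧
    (∃ H : Set (ℕ → ZMod 2), ¬ H.Countable ∧
      H.Pairwise fun x y => Disjoint ((fun b => b + x) '' B) ((fun b => b + y) '' B)) ∧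
    ¬ ∃ P : Set (ℕ → ZMod 2), P.Nonempty ∧ Perfect P ∧
      P.Pairwise fun x y => Disjoint ((fun b => b + x) '' B) ((fun b => b + y) '' B) := by
  obtain ⟨B, hB, ⟨H, hH, hHp⟩, hP⟩ := core
  obtain ⟨e⟩ : Nonempty ((D ⊕ ℕ) ≃ ℕ) := nonempty_equiv_of_countable
  let h : (ℕ → ZMod 2) → G := fun z i => z (e i)
  let k : G → (ℕ → ZMod 2) := fun z n => z (e.symm n)
  have hc : Continuous h := continuous_pi fun i => continuous_apply _
  have kc : Continuous k := continuous_pi fun i => continuous_apply _
  have hk : ∀ z, h (k z) = z := fun z => funext fun i => by simp [h, k]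
  have kh : ∀ z, k (h z) = z := fun z => funext fun i => by simp [h, k]
  have hinj : Function.Injective h := Function.LeftInverse.injective kh
  have kinj : Function.Injective k := Function.LeftInverse.injective hk
  have hdis : ∀ x y : ℕ → ZMod 2,
      Disjoint ((fun b => b + x) '' (h ⁻¹' B)) ((fun b => b + y) '' (h ⁻¹' B)) ↔
        ∀ b ∈ B, ∀ b' ∈ B, b + h x ≠ b' + h y := by
    intro x y
    rw [Set.disjoint_left]
    constructor
    · intro hd b hb b' hb' e'
      refine hd ⟨k b, by simpa [hk] using hb, rfl⟩ ⟨k b', by simpa [hk] using hb', hinj ?_⟩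
      show h (k b') + h y = h (k b) + h x
      rw [hk, hk, e']
    · rintro hd _ ⟨b, hb, rfl⟩ ⟨b', hb', e'⟩
      exact hd _ hb _ hb' (congrArg h e').symm
  refine ⟨h ⁻¹' B, hc.borel_measurable hB, ⟨k '' H, fun hc' => hH
    (countable_of_injective_of_countable_image kinj.injOn hc'), ?_⟩, ?_⟩
  · rintro _ ⟨x, hx, rfl⟩ _ ⟨y, hy, rfl⟩ hne
    rw [hdis, hk, hk]
    exact hHp hx hy fun e' => hne (by rw [e'])
  · rintro ⟨P, hne, hperf, hPp⟩
    have h1 : (k ⁻¹' P).Countable := by
      refine hP _ (hperf.closed.preimage kc) fun x hx y hy hxy => ?_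
      have := (hdis _ _).1 (hPp hx hy fun e' => hxy (kinj e'))
      rwa [hk, hk] at this
    have h2 : P.Countable := by
      refine (h1.image k).mono fun p hp => ?_
      exact ⟨h p, by simpa [kh] using hp, kh p⟩
    have h3 : TopologicalSpace.IsCompletelyMetrizableSpace (ℕ → ZMod 2) := inferInstance
    let := TopologicalSpace.upgradeIsCompletelyMetrizable (ℕ → ZMod 2)
    obtain ⟨f, hf, -, finj⟩ := hperf.exists_nat_bool_injection hne
    have h4 : (univ : Set (ℕ → Bool)).Countable :=
      countable_of_injective_of_countable_image finj.injOn (h2.mono (by rwa [image_univ]))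
    rw [← Cardinal.le_aleph0_iff_set_countable, Cardinal.mk_univ] at h4
    have h5 : Cardinal.mk (ℕ → Bool) = Cardinal.continuum := by simp
    rw [h5] at h4
    exact absurd Cardinal.aleph0_lt_continuum (not_lt.2 h4)

end Pool.Agent.Results.MP_15e54c_lc.BorelTranslates
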